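import Pool.Agent.H57.CP.Targets

/-!
# MP_397744_co, module DIH: roots of dihedral groups
-/

namespace Pool.Agent.H47.CP.DIH

open Pool.Agent.H57.CP

theorem mk_comm (x y : V4) : mk x y = mk y x := by
  unfold mk
  ring

/-- the Chebyshev recursion for sines -/
theorem sin_rec (j : ℕ) (ψ : ℝ) :
    Real.sin (((j + 2 : ℕ) : ℝ) * ψ) = 2 * Real.cos ψ * Real.sin (((j + 1 : ℕ) : ℝ) * ψ) -
      Real.sin ((j : ℝ) * ψ) := by
  have e1 : (((j + 2 : ℕ) : ℝ) * ψ) = ((j + 1 : ℕ) : ℝ) * ψ + ψ := by push_cast; ring
  have e2 : ((j : ℝ) * ψ) = ((j + 1 : ℕ) : ℝ) * ψ - ψ := by push_cast; ring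
  rw [e1, e2, Real.sin_add, Real.sin_sub]
  ring

theorem refl_comb (a x y : V4) (s t : ℝ) :
    refl a (s • x + t • y) = s • refl a x + t • refl a y := by
  rw [map_add, map_smul, map_smul]

theorem refl_self (a : V4) (h : mk a a = -1) : refl a a = -a := by
  ext i
  show a i + 2 * mk a a * a i = -a i
  rw [h]
  ring

theorem refl_other (a x : V4) : refl a x = x + (2 * mk a x) • a := by
  ext i
  show x i + 2 * mk a x * a i = x i + (2 * mk a x) * a i
  ring

end Pool.Agent.H47.CP.DIH

namespace Pool.Agent.H47.CP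

open Pool.Agent.H57.CP DIH

theorem dih : T_DIH := by
  intro α β m hm hα hβ hαβ k
  have hpi := Real.pi_pos
  have hm' : (2 : ℝ) ≤ m := by exact_mod_cast hm
  have hs : 0 < Real.sin (Real.pi / m) := by
    apply Real.sin_pos_of_pos_of_lt_pi
    · positivity
    · rw [div_lt_iff₀ (by positivity)]
      nlinarith
  have hrec : ∀ j : ℕ, Real.sin (((j + 2 : ℕ) : ℝ) * Real.pi / m) / Real.sin (Real.pi / m) =
      2 * Real.cos (Real.pi / m) * (Real.sin (((j + 1 : ℕ) : ℝ) * Real.pi / m) / Real.sin (Real.pi / m)) -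
        Real.sin ((j : ℝ) * Real.pi / m) / Real.sin (Real.pi / m) := by
    intro j
    have := sin_rec j (Real.pi / m)
    rw [← mul_div_assoc, ← mul_div_assoc, ← mul_div_assoc] at this
    rw [this]
    field_simp
  induction k with
  | zero =>
    simp only [alt, Module.End.one_apply, Even.zero, if_true, zero_add, Nat.cast_one, one_mul,
      Nat.cast_zero, zero_mul, zero_div, Real.sin_zero, zero_smul, add_zero]
    rw [div_self hs.ne', one_smul]
  | succ k ih =>
    simp only [alt]
    rw [Module.End.mul_apply, ih]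
    by_cases hk : Even k
    · have hk1 : ¬ Even (k + 1) := by
        rw [Nat.even_add_one]; exact fun h => h hk
      simp only [hk, if_true, hk1, if_false]
      rw [refl_comb, refl_self β hβ, refl_other β α, mk_comm β α, hαβ, hrec k]
      module
    · have hk1 : Even (k + 1) := by
        rw [Nat.even_add_one]; exact hk
      simp only [hk, if_false, hk1, if_true]
      rw [refl_comb, refl_self α hα, refl_other α β, hαβ, show k + 1 + 1 = k + 2 from rfl, hrec k]
      module

end Pool.Agent.H47.CP
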