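import Pool.Agent.H57.CP.Targets

/-!
# MP_397744_co, module ROO: the simple roots
-/

namespace Pool.Agent.H47.CP.ROO

open Pool.Agent.H57.CP

theorem one_lt_c0 (a b : ℕ) (h : Hyp a b) : 1 < c0 a b := by
  obtain ⟨ha, hb, hab⟩ := h
  have ha' : (2 : ℝ) ≤ a := by exact_mod_cast ha
  have hb' : (2 : ℝ) ≤ b := by exact_mod_cast hb
  have hpi := Real.pi_pos
  have hs : 0 < Real.sin (Real.pi / (2 * b)) := by
    apply Real.sin_pos_of_pos_of_lt_pi
    · positivity
    · rw [div_lt_iff₀ (by positivity)]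
      nlinarith
  unfold c0
  rw [lt_div_iff₀ hs, one_mul]
  have hsin : Real.sin (Real.pi / (2 * b)) = Real.cos (Real.pi / 2 - Real.pi / (2 * b)) := by
    rw [Real.cos_pi_div_two_sub]
  rw [hsin]
  have key : (1 : ℝ) / a + 1 / b < 1 := by
    have h3 : 3 ≤ a ∨ 3 ≤ b := by
      by_contra hcon
      push Not at hcon
      apply hab
      constructor <;> omega
    rw [div_add_div _ _ (by positivity) (by positivity), div_lt_one (by positivity)]
    rcases h3 with h3 | h3
    · have h3' : (3 : ℝ) ≤ a := by exact_mod_cast h3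
      nlinarith
    · have h3' : (3 : ℝ) ≤ b := by exact_mod_cast h3
      nlinarith
  apply Real.cos_lt_cos_of_nonneg_of_le_pi
  · positivity
  · have : Real.pi / (2 * b) > 0 := by positivity
    linarith
  · have e1 : Real.pi / (2 * a) = Real.pi / 2 * (1 / a) := by
      field_simp
    have e2 : Real.pi / (2 * b) = Real.pi / 2 * (1 / b) := by
      field_simp
    rw [e1, e2]
    nlinarith

end Pool.Agent.H47.CP.ROO

namespace Pool.Agent.H47.CP

open Pool.Agent.H57.CP

theorem roo : T_ROO := by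
  intro a b h
  have h1 := ROO.one_lt_c0 a b h
  obtain ⟨ha, hb, hab⟩ := h
  have ha' : (2 : ℝ) ≤ a := by exact_mod_cast ha
  have hb' : (2 : ℝ) ≤ b := by exact_mod_cast hb
  have hs : 0 < Real.sin (Real.pi / (2 * b)) := by
    have hpi := Real.pi_pos
    apply Real.sin_pos_of_pos_of_lt_pi
    · positivity
    · rw [div_lt_iff₀ (by positivity)]
      nlinarith
  have hsq : Real.sqrt (c0 a b ^ 2 - 1) * Real.sqrt (c0 a b ^ 2 - 1) = c0 a b ^ 2 - 1 := by
    apply Real.mul_self_sqrt
    nlinarith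
  have hc : c0 a b * Real.sin (Real.pi / (2 * b)) = Real.cos (Real.pi / (2 * a)) := by
    unfold c0
    field_simp
  have hsc := Real.sin_sq_add_cos_sq (Real.pi / (2 * b))
  refine ⟨h1, ?_, ?_⟩
  · intro i
    fin_cases i
    · simp only [mk, al, Fin.zero_eta, Fin.isValue, Matrix.cons_val_zero, Matrix.cons_val]
      linarith
    · simp only [mk, al, Fin.mk_one, Fin.isValue, Matrix.cons_val_one, Matrix.cons_val_zero, Matrix.cons_val]
      nlinarith
    · simp [mk, al]
  · have m01 : ((cm a b 0 1 : ℕ) : ℝ) = 2 * a := by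
      have : (cm a b 0 1 : ℕ) = 2 * a := rfl
      rw [this]; push_cast; ring
    have m10 : ((cm a b 1 0 : ℕ) : ℝ) = 2 * a := by
      have : (cm a b 1 0 : ℕ) = 2 * a := rfl
      rw [this]; push_cast; ring
    have m12 : ((cm a b 1 2 : ℕ) : ℝ) = 2 * b := by
      have : (cm a b 1 2 : ℕ) = 2 * b := rfl
      rw [this]; push_cast; ring
    have m21 : ((cm a b 2 1 : ℕ) : ℝ) = 2 * b := by
      have : (cm a b 2 1 : ℕ) = 2 * b := rfl
      rw [this]; push_cast; ring
    have m02 : ((cm a b 0 2 : ℕ) : ℝ) = 2 := by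
      have : (cm a b 0 2 : ℕ) = 2 := rfl
      rw [this]; push_cast; ring
    have m20 : ((cm a b 2 0 : ℕ) : ℝ) = 2 := by
      have : (cm a b 2 0 : ℕ) = 2 := rfl
      rw [this]; push_cast; ring
    intro i j hij
    fin_cases i <;> fin_cases j
    · exact absurd rfl hij
    · show mk (al a b 0) (al a b 1) = Real.cos (Real.pi / ((cm a b 0 1 : ℕ) : ℝ))
      rw [m01]
      simp only [mk, al, Fin.isValue, Matrix.cons_val_zero, Matrix.cons_val_one, Matrix.cons_val]
      linarith
    · show mk (al a b 0) (al a b 2) = Real.cos (Real.pi / ((cm a b 0 2 : ℕ) : ℝ))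
      rw [m02, Real.cos_pi_div_two]
      simp [mk, al]
    · show mk (al a b 1) (al a b 0) = Real.cos (Real.pi / ((cm a b 1 0 : ℕ) : ℝ))
      rw [m10]
      simp only [mk, al, Fin.isValue, Matrix.cons_val_zero, Matrix.cons_val_one, Matrix.cons_val]
      linarith
    · exact absurd rfl hij
    · show mk (al a b 1) (al a b 2) = Real.cos (Real.pi / ((cm a b 1 2 : ℕ) : ℝ))
      rw [m12]
      simp [mk, al]
    · show mk (al a b 2) (al a b 0) = Real.cos (Real.pi / ((cm a b 2 0 : ℕ) : ℝ))
      rw [m20, Real.cos_pi_div_two]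
      simp [mk, al]
    · show mk (al a b 2) (al a b 1) = Real.cos (Real.pi / ((cm a b 2 1 : ℕ) : ℝ))
      rw [m21]
      simp [mk, al]
    · exact absurd rfl hij

end Pool.Agent.H47.CP
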